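import Mathlib

/-!
# Fewer equations than unknowns have a common non-trivial zero
-/

set_option autoImplicit false

namespace Pool.Agent.Helper10.FQ

open MvPolynomial

variable {σ : Type} [Finite σ]

/-- Translation by a point as a ring automorphism. -/
noncomputable def trans (x : σ → ℂ) : MvPolynomial σ ℂ ≃ₐ[ℂ] MvPolynomial σ ℂ :=
  AlgEquiv.ofAlgHom (aeval fun i => X i + C (x i)) (aeval fun i => X i - C (x i))
    (by ext i; simp) (by ext i; simp)

lemma eval_trans (x y : σ → ℂ) (g : MvPolynomial σ ℂ) :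
    eval y (trans x g) = eval (y + x) g := by
  have : ((aeval y : MvPolynomial σ ℂ →ₐ[ℂ] ℂ).comp (trans x : MvPolynomial σ ℂ →ₐ[ℂ] _)) =
      aeval (y + x) := by
    ext i
    simp [trans]
  have h := congrArg (fun φ : MvPolynomial σ ℂ →ₐ[ℂ] ℂ => φ g) this
  simpa [aeval_eq_eval] using h

lemma height_vanishing (x : σ → ℂ) :
    (vanishingIdeal ℂ ({x} : Set (σ → ℂ)) : Ideal (MvPolynomial σ ℂ)).height =
      (vanishingIdeal ℂ ({0} : Set (σ → ℂ)) : Ideal (MvPolynomial σ ℂ)).height := by
  have h : (vanishingIdeal ℂ ({x} : Set (σ → ℂ)) : Ideal (MvPolynomial σ ℂ)) =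
      (vanishingIdeal ℂ ({0} : Set (σ → ℂ)) : Ideal (MvPolynomial σ ℂ)).comap
        (trans x).toRingEquiv := by
    ext g
    simp only [mem_vanishingIdeal_iff, Set.mem_singleton_iff, forall_eq, Ideal.mem_comap]
    have := eval_trans x 0 g
    rw [zero_add] at this
    simp only [aeval_eq_eval] at *
    constructor
    · intro h
      exact this.trans h
    · intro h
      exact this.symm.trans h
  rw [h, RingEquiv.height_comap]

lemma height_zero_le : (Nat.card σ : WithBot ℕ∞) ≤
    (vanishingIdeal ℂ ({0} : Set (σ → ℂ)) : Ideal (MvPolynomial σ ℂ)).height := by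
  have h1 : ringKrullDim (MvPolynomial σ ℂ) = Nat.card σ := by
    rw [MvPolynomial.ringKrullDim_of_isNoetherianRing]
    simp
  rw [← h1, ringKrullDim_le_iff_isMaximal_height_le]
  intro I hI
  obtain ⟨x, rfl⟩ := (isMaximal_iff_eq_vanishingIdeal_singleton).1 hI
  rw [height_vanishing x]

/-- Fewer polynomials than variables, all vanishing at `0`, have a common zero `≠ 0`. -/
theorem exists_common_zero {κ : Type} (s : Finset κ) (g : κ → MvPolynomial σ ℂ)
    (hg : ∀ k ∈ s, eval 0 (g k) = 0) (hs : s.card < Nat.card σ) :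
    ∃ x : σ → ℂ, x ≠ 0 ∧ ∀ k ∈ s, eval x (g k) = 0 := by
  classical
  by_contra hcon
  push Not at hcon
  set I : Ideal (MvPolynomial σ ℂ) := Ideal.span (s.image g : Finset (MvPolynomial σ ℂ)) with hI
  set m : Ideal (MvPolynomial σ ℂ) := vanishingIdeal ℂ ({0} : Set (σ → ℂ)) with hm
  have hIm : I ≤ m := by
    rw [hI, Ideal.span_le]
    intro p hp
    simp only [Finset.coe_image, Set.mem_image, Finset.mem_coe] at hp
    obtain ⟨k, hk, rfl⟩ := hp
    simp only [hm, SetLike.mem_coe, mem_vanishingIdeal_iff, Set.mem_singleton_iff, forall_eq]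
    exact hg k hk
  haveI : m.IsPrime := by
    have : m.IsMaximal := isMaximal_iff_eq_vanishingIdeal_singleton.2 ⟨0, rfl⟩
    exact this.isPrime
  obtain ⟨P, hP, hPm⟩ := Ideal.exists_minimalPrimes_le hIm
  haveI hPp : P.IsPrime := hP.1.1
  have hle : m ≤ P := by
    rw [← IsPrime.vanishingIdeal_zeroLocus (K := ℂ) P]
    intro p hp
    rw [mem_vanishingIdeal_iff]
    intro x hx
    rw [mem_zeroLocus_iff] at hx
    have hx0 : x = 0 := by
      by_contra hne
      obtain ⟨k, hk, hk'⟩ := hcon x hne
      apply hk'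
      exact hx (g k) (hP.1.2 (Ideal.subset_span (by
        simp only [Finset.coe_image, Set.mem_image, Finset.mem_coe]
        exact ⟨k, hk, rfl⟩)))
    subst hx0
    rw [hm, mem_vanishingIdeal_iff] at hp
    exact hp 0 rfl
  have hPe : P = m := le_antisymm hPm hle
  have h2 := Ideal.height_le_card_of_mem_minimalPrimes_span_finset (hI ▸ hP)
  have h3 := height_zero_le (σ := σ)
  rw [hPe] at h2
  have h4 : (Nat.card σ : WithBot ℕ∞) ≤ ((s.image g).card : ℕ∞) := h3.trans (by exact_mod_cast h2)
  have h5 : Nat.card σ ≤ (s.image g).card := by exact_mod_cast h4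
  have h6 : (s.image g).card ≤ s.card := Finset.card_image_le
  omega

end Pool.Agent.Helper10.FQ
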