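import Pool.Agent.Helper10.FQ.Lattice

/-!
# The combinatorial core: a functional constant on the monomials of degree `m`, weight `χ`
-/

set_option autoImplicit false

namespace Pool.Agent.Helper10.FQ

variable {N : ℕ} {ι G : Type} [AddCommGroup G]

/-- `τ` is constant, equal to `lam`, on all monomials `X_i^a X_j^b X_k^c` of degree `m` and weight
`χ` with `i, j, k ∈ I`. -/
def ConstOn (w : ι → ZMod N) (I : Set ι) (m : ℕ) (χ : ZMod N) (τ : ι → G) (lam : G) : Prop :=
  ∀ i ∈ I, ∀ j ∈ I, ∀ k ∈ I, ∀ a b c : ℕ, a + b + c = m →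
    (a : ZMod N) * w i + b * w j + c * w k = χ → a • τ i + b • τ j + c • τ k = lam

/-- Two variables of distinct weights already give all weights in degree `≥ N - 1`. -/
lemma exists_pair (hN : 2 ≤ N) {α β : ZMod N} (h : IsUnit (α - β)) {m : ℕ} (hm : N ≤ m + 1)
    (χ : ZMod N) : ∃ a b : ℕ, a + b = m ∧ (a : ZMod N) * α + b * β = χ := by
  haveI : NeZero N := ⟨by omega⟩
  obtain ⟨c, h0, h1, h2⟩ := exists_residue h (χ - (m : ZMod N) * β)
  obtain ⟨a, rfl⟩ := Int.eq_ofNat_of_zero_le h0
  have ham : a ≤ m := by omega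
  refine ⟨a, m - a, by omega, ?_⟩
  rw [Nat.cast_sub ham]
  push_cast at h2
  linear_combination h2

variable {w : ι → ZMod N} {I : Set ι} {m : ℕ} {χ : ZMod N} {τ : ι → G} {lam : G}

lemma ConstOn.same (hN : 2 ≤ N) (h : ConstOn w I m χ τ lam) (hm : N ≤ m) {k l : ι}
    (hk : k ∈ I) (hl : l ∈ I) (hkl : IsUnit (w k - w l)) {i j : ι} (hi : i ∈ I) (hj : j ∈ I)
    (hij : w i = w j) : τ i = τ j := by
  obtain ⟨a, b, hab, he⟩ := exists_pair hN hkl (m := m - 1) (by omega) (χ - w i)
  have h1 := h i hi k hk l hl 1 a b (by omega) (by push_cast; linear_combination he)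
  have h2 := h j hj k hk l hl 1 a b (by omega) (by rw [← hij]; push_cast; linear_combination he)
  rw [← h2] at h1
  simpa using h1

/-- Three variables of pairwise distinct weights. -/
lemma ConstOn.three (hN : 2 ≤ N) (h : ConstOn w I m χ τ lam) (hm : N ≤ m) {i j k : ι}
    (hi : i ∈ I) (hj : j ∈ I) (hk : k ∈ I) (hij : IsUnit (w i - w j)) (hik : IsUnit (w i - w k))
    (hjk : IsUnit (w j - w k)) (b c : ℤ)
    (hz : (b : ZMod N) * (w j - w i) + (c : ZMod N) * (w k - w i) = 0) :
    b • (τ j - τ i) + c • (τ k - τ i) = 0 := by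
  let φ : ℤ × ℤ →+ G :=
    { toFun := fun z => z.1 • (τ j - τ i) + z.2 • (τ k - τ i)
      map_zero' := by simp
      map_add' := by
        intro x y
        simp only [Prod.fst_add, Prod.snd_add, add_smul]
        abel }
  have hp : IsUnit (w j - w i) := by
    have := hij.neg
    rwa [neg_sub] at this
  have hq : IsUnit (w k - w i) := by
    have := hik.neg
    rwa [neg_sub] at this
  have hpq : IsUnit ((w j - w i) - (w k - w i)) := by
    rwa [sub_sub_sub_cancel_right]
  have key : ∀ P : ℤ × ℤ, InTri (w j - w i) (w k - w i) (χ - (m : ZMod N) * w i) (m : ℤ) P →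
      φ P = lam - (m : ℤ) • τ i := by
    rintro ⟨P1, P2⟩ ⟨h1, h2, h3, h4⟩
    simp only at h1 h2 h3 h4
    obtain ⟨p1, rfl⟩ := Int.eq_ofNat_of_zero_le h1
    obtain ⟨p2, rfl⟩ := Int.eq_ofNat_of_zero_le h2
    have hle : p1 + p2 ≤ m := by omega
    have h5 := h i hi j hj k hk (m - (p1 + p2)) p1 p2 (by omega) (by
      rw [Nat.cast_sub hle]
      push_cast at h4 ⊢
      linear_combination h4)
    have h6 : ((m - (p1 + p2) : ℕ) : ℤ) • τ i = (m : ℤ) • τ i - (p1 : ℤ) • τ i - (p2 : ℤ) • τ i := by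
      rw [Nat.cast_sub hle]
      push_cast
      rw [sub_smul, add_smul]
      abel
    rw [← natCast_zsmul, h6] at h5
    rw [← h5]
    simp only [φ, AddMonoidHom.coe_mk, ZeroHom.coe_mk, smul_sub, natCast_zsmul]
    abel
  have := lattice_mem hN hp hq hpq (m := (m : ℤ)) (by exact_mod_cast hm) φ.ker (fun P Q hP hQ => by
    rw [AddMonoidHom.mem_ker, map_sub, key P hP, key Q hQ, sub_self]) (b, c) hz
  rw [AddMonoidHom.mem_ker] at this
  exact this

/-- The relation `N (τ i - τ j) = 0` when there are three distinct weights. -/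
lemma ConstOn.nsmul_three (hN : 2 ≤ N) (h : ConstOn w I m χ τ lam) (hm : N ≤ m) {i j k : ι}
    (hi : i ∈ I) (hj : j ∈ I) (hk : k ∈ I) (hij : IsUnit (w i - w j)) (hik : IsUnit (w i - w k))
    (hjk : IsUnit (w j - w k)) : N • (τ j - τ i) = 0 := by
  have := h.three hN hm hi hj hk hij hik hjk N 0 (by simp)
  simpa using this

/-- The relation `N (τ i - τ j) = 0` when the degree is at least `2 N - 1`. -/
lemma ConstOn.nsmul_of_large (hN : 2 ≤ N) (h : ConstOn w I m χ τ lam) (hm : 2 * N ≤ m + 1)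
    {i j : ι} (hi : i ∈ I) (hj : j ∈ I) (hij : IsUnit (w i - w j)) : N • (τ j - τ i) = 0 := by
  haveI : NeZero N := ⟨by omega⟩
  obtain ⟨a, b, hab, he⟩ := exists_pair hN hij (m := m - N) (by omega) χ
  have h1 := h i hi j hj j hj (a + N) b 0 (by omega) (by push_cast; simp; exact he)
  have h2 := h i hi j hj j hj a (b + N) 0 (by omega) (by push_cast; simp; exact he)
  rw [← h2] at h1
  simp only [add_smul, zero_smul, add_zero] at h1
  have h3 : N • τ i = N • τ j := by
    have : a • τ i + b • τ j + N • τ i = a • τ i + b • τ j + N • τ j := by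
      rw [add_right_comm, h1]; abel
    exact add_left_cancel this
  rw [smul_sub, h3, sub_self]

/-- Conclusion: if `N (τ j - τ i) = 0` for two indices of distinct weights, then `τ` is `μ_N`-like:
`τ k = τ i + e • (τ j - τ i)` for every `k` and every integer `e` with
`e (w j - w i) = w k - w i`. -/
lemma ConstOn.final (hN : 2 ≤ N) (hw : ∀ i j, w i = w j ∨ IsUnit (w i - w j))
    (h : ConstOn w I m χ τ lam) (hm : N ≤ m) {i j : ι}
    (hi : i ∈ I) (hj : j ∈ I) (hij : IsUnit (w i - w j)) (h0 : N • (τ j - τ i) = 0) {k : ι}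
    (hk : k ∈ I) (e : ℤ) (he : (e : ZMod N) * (w j - w i) = w k - w i) :
    τ k = τ i + e • (τ j - τ i) := by
  have hN0 : ∀ e : ℤ, ((e : ℤ) : ZMod N) = 0 → e • (τ j - τ i) = 0 := by
    intro e he
    rw [ZMod.intCast_zmod_eq_zero_iff_dvd] at he
    obtain ⟨f, rfl⟩ := he
    rw [mul_comm, mul_smul, natCast_zsmul, h0, smul_zero]
  have hji : IsUnit (w j - w i) := by
    have := hij.neg
    rwa [neg_sub] at this
  rcases hw i k with h1 | h1
  · have : (e : ZMod N) = 0 := by
      rw [← h1, sub_self] at he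
      exact (hji.mul_left_eq_zero).1 he
    rw [hN0 e this, add_zero]
    exact (h.same hN hm hi hj hij hi hk h1).symm
  rcases hw j k with h2 | h2
  · have : ((e - 1 : ℤ) : ZMod N) = 0 := by
      rw [← h2] at he
      have : ((e : ZMod N) - 1) * (w j - w i) = 0 := by linear_combination he
      push_cast
      exact (hji.mul_left_eq_zero).1 this
    have h3 := hN0 _ this
    rw [sub_smul, one_smul, sub_eq_zero] at h3
    rw [h3, add_sub_cancel]
    exact (h.same hN hm hi hj hij hj hk h2).symm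
  · have := h.three hN hm hi hj hk hij h1 h2 (-e) 1 (by
      push_cast
      linear_combination -he)
    rw [neg_smul, one_smul] at this
    have h4 : τ k - τ i = e • (τ j - τ i) := by
      have := eq_neg_of_add_eq_zero_right this
      rw [this, neg_neg]
    rw [← h4, add_sub_cancel]

end Pool.Agent.Helper10.FQ
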