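import Pool.Agent.Helper10.FQ.Core
import Pool.Agent.Helper10.FQ.Zero

/-!
# Free cyclic quotients of complete intersections: definitions and proof
-/

set_option autoImplicit false

namespace Pool.Agent.Helper10.FQ

open MvPolynomial

variable {r c N : ℕ}

/-- The diagonal action of the root of unity `ζ` on `ℂ ^ (r + 1)`:
`(ζ · x)_i = ζ ^ (w i) x_i`, with weights `w i ∈ ℤ/N`. -/
def act (w : Fin (r + 1) → ZMod N) (ζ : ℂ) (x : Fin (r + 1) → ℂ) : Fin (r + 1) → ℂ :=
  fun i => ζ ^ (w i).val * x i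

/-- The value `dg_x(v) = ∑ i, (∂g/∂x_i)(x) v_i` of the differential of `g` at `x` on `v`. -/
noncomputable def diffAt (g : MvPolynomial (Fin (r + 1)) ℂ) (x v : Fin (r + 1) → ℂ) : ℂ :=
  ∑ i, eval x (pderiv i g) * v i

/-- `Y = {f_1 = ... = f_c = 0} ⊂ ℙ^r` is a smooth complete intersection of forms `f_j` of degrees
`d_j > 0` which are semi-invariant under the diagonal action of `μ_N` with weights `w`, and `μ_N`
acts freely on `Y`. -/
structure IsFreeCI (w : Fin (r + 1) → ZMod N) (d : Fin c → ℕ)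
    (f : Fin c → MvPolynomial (Fin (r + 1)) ℂ) : Prop where
  degree_pos : ∀ j, 0 < d j
  homogeneous : ∀ j, (f j).IsHomogeneous (d j)
  semi_invariant : ∀ j, ∃ ω : ZMod N, IsWeightedHomogeneous w (f j) ω
  smooth : ∀ x : Fin (r + 1) → ℂ, x ≠ 0 → (∀ j, eval x (f j) = 0) →
    LinearIndependent ℂ fun j => (fun i => eval x (pderiv i (f j)) : Fin (r + 1) → ℂ)
  free : ∀ x : Fin (r + 1) → ℂ, x ≠ 0 → (∀ j, eval x (f j) = 0) →
    ∀ ζ t : ℂ, ζ ^ N = 1 → act w ζ x = t • x → ζ = 1

/-- `g` is a section of the line bundle `(m, χ)` on `X = Y / μ_N`: a form of degree `m` whose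
monomials `x^u` all have weight `∑ u_i w_i = χ` in `ℤ/N` (i.e. `g (ζ · x) = ζ ^ χ g x`). -/
def IsSection (w : Fin (r + 1) → ZMod N) (m : ℕ) (χ : ZMod N)
    (g : MvPolynomial (Fin (r + 1)) ℂ) : Prop :=
  g.IsHomogeneous m ∧ IsWeightedHomogeneous w g χ

/-- The line bundle `(m, χ)` on `X = Y / μ_N` is very ample: its sections have no common zero,
separate the points of `X` (orbits of `ℂˣ × μ_N` on the punctured cone of `Y`) and the tangent
vectors of `X` (vectors `v` tangent to the cone at `x`, modulo the Euler vector `x`). -/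
structure VeryAmple (w : Fin (r + 1) → ZMod N) (f : Fin c → MvPolynomial (Fin (r + 1)) ℂ)
    (m : ℕ) (χ : ZMod N) : Prop where
  base_point_free : ∀ x : Fin (r + 1) → ℂ, x ≠ 0 → (∀ j, eval x (f j) = 0) →
    ∃ g, IsSection w m χ g ∧ eval x g ≠ 0
  separates_points : ∀ x y : Fin (r + 1) → ℂ, x ≠ 0 → y ≠ 0 → (∀ j, eval x (f j) = 0) →
    (∀ j, eval y (f j) = 0) → (∀ ζ t : ℂ, ζ ^ N = 1 → y ≠ t • act w ζ x) →
    ∃ g, IsSection w m χ g ∧ eval x g = 0 ∧ eval y g ≠ 0
  separates_tangents : ∀ x v : Fin (r + 1) → ℂ, x ≠ 0 → (∀ j, eval x (f j) = 0) →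
    (∀ j, diffAt (f j) x v = 0) → (∀ t : ℂ, v ≠ t • x) →
    ∃ g, IsSection w m χ g ∧ eval x g = 0 ∧ diffAt g x v ≠ 0

/-! ### Monomials in three variables -/

/-- The monomial `X_i^a X_j^b X_k^c`. -/
noncomputable def mono (i j k : Fin (r + 1)) (a b c : ℕ) : MvPolynomial (Fin (r + 1)) ℂ :=
  X i ^ a * X j ^ b * X k ^ c

lemma mono_isSection (w : Fin (r + 1) → ZMod N) {m : ℕ} {χ : ZMod N} (i j k : Fin (r + 1))
    {a b c : ℕ} (h1 : a + b + c = m) (h2 : (a : ZMod N) * w i + b * w j + c * w k = χ) :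
    IsSection w m χ (mono i j k a b c) := by
  constructor
  · have := (((isHomogeneous_X ℂ i).pow a).mul ((isHomogeneous_X ℂ j).pow b)).mul
      ((isHomogeneous_X ℂ k).pow c)
    simpa [mono, h1] using this
  · have := (((isWeightedHomogeneous_X ℂ w i).pow a).mul
      ((isWeightedHomogeneous_X ℂ w j).pow b)).mul ((isWeightedHomogeneous_X ℂ w k).pow c)
    simpa [mono, h2, nsmul_eq_mul] using this

lemma eval_mono (x : Fin (r + 1) → ℂ) (i j k : Fin (r + 1)) (a b c : ℕ) :
    eval x (mono i j k a b c) = x i ^ a * x j ^ b * x k ^ c := by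
  simp [mono]

lemma diffAt_mul (g h : MvPolynomial (Fin (r + 1)) ℂ) (x v : Fin (r + 1) → ℂ) :
    diffAt (g * h) x v = diffAt g x v * eval x h + eval x g * diffAt h x v := by
  simp only [diffAt, pderiv_mul, map_add, map_mul, add_mul, Finset.sum_add_distrib,
    Finset.sum_mul, Finset.mul_sum]
  congr 1
  · exact Finset.sum_congr rfl fun i _ => by ring
  · exact Finset.sum_congr rfl fun i _ => by ring

lemma diffAt_X (i : Fin (r + 1)) (x v : Fin (r + 1) → ℂ) : diffAt (X i) x v = v i := by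
  classical
  simp only [diffAt, pderiv_X]
  rw [Finset.sum_eq_single i]
  · simp
  · intro j _ hj
    simp [hj.symm]
  · simp

lemma diffAt_sub (g h : MvPolynomial (Fin (r + 1)) ℂ) (x v : Fin (r + 1) → ℂ) :
    diffAt (g - h) x v = diffAt g x v - diffAt h x v := by
  simp only [diffAt, map_sub, sub_mul, Finset.sum_sub_distrib]

lemma diffAt_C_mul (a : ℂ) (g : MvPolynomial (Fin (r + 1)) ℂ) (x v : Fin (r + 1) → ℂ) :
    diffAt (C a * g) x v = a * diffAt g x v := by
  simp only [diffAt, pderiv_C_mul, map_mul, eval_C, Finset.mul_sum, mul_assoc]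

lemma diffAt_pow (g : MvPolynomial (Fin (r + 1)) ℂ) (n : ℕ) (x v : Fin (r + 1) → ℂ) (ν : ℂ)
    (h : diffAt g x v = ν * eval x g) : diffAt (g ^ n) x v = n * ν * eval x (g ^ n) := by
  induction n with
  | zero => simp [diffAt]
  | succ n ih =>
    rw [pow_succ, diffAt_mul, ih, h, map_mul]
    push_cast
    ring

lemma diffAt_mono (x v : Fin (r + 1) → ℂ) (i j k : Fin (r + 1)) (a b c : ℕ)
    (hi : x i ≠ 0) (hj : x j ≠ 0) (hk : x k ≠ 0) :
    diffAt (mono i j k a b c) x v =
      (a • (v i / x i) + b • (v j / x j) + c • (v k / x k)) * eval x (mono i j k a b c) := by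
  have h : ∀ i, x i ≠ 0 → diffAt (X i) x v = (v i / x i) * eval x (X i) := by
    intro i hi
    rw [diffAt_X, eval_X, div_mul_cancel₀ _ hi]
  rw [mono, diffAt_mul, diffAt_mul, diffAt_pow _ _ _ _ _ (h i hi), diffAt_pow _ _ _ _ _ (h j hj),
    diffAt_pow _ _ _ _ _ (h k hk)]
  simp only [map_mul, nsmul_eq_mul]
  ring

/-! ### Supports in one weight class -/

lemma weight_of_support {w : Fin (r + 1) → ZMod N} {f : MvPolynomial (Fin (r + 1)) ℂ} {d : ℕ}
    {ω α : ZMod N} (h1 : f.IsHomogeneous d) (h2 : IsWeightedHomogeneous w f ω)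
    {x : Fin (r + 1) → ℂ} (hx : ∀ i, x i ≠ 0 → w i = α) (hf : eval x f ≠ 0) :
    (d : ZMod N) * α = ω := by
  rw [eval_eq'] at hf
  obtain ⟨u, hu, hne⟩ := Finset.exists_ne_zero_of_sum_ne_zero hf
  have hc := mem_support_iff.1 hu
  have e2 := h2 hc
  have e1 := h1 hc
  have hprod : ∏ i, x i ^ u i ≠ 0 := fun h => hne (by rw [h, mul_zero])
  have hw : ∀ i, u i • w i = u i • α := by
    intro i
    by_cases hi : u i = 0
    · simp [hi]
    · have : x i ^ u i ≠ 0 := fun h => hprod (Finset.prod_eq_zero (Finset.mem_univ i) h)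
      have : x i ≠ 0 := fun h => this (by rw [h, zero_pow hi])
      rw [hx i this]
  rw [Finsupp.weight_apply, Finsupp.sum_fintype _ _ (by simp)] at e1 e2
  rw [← e2, ← e1, Finset.sum_congr rfl fun i _ => hw i, ← Finset.sum_smul, nsmul_eq_mul]
  push_cast
  simp

lemma IsFreeCI.two_weights (hN : 2 ≤ N) {w : Fin (r + 1) → ZMod N} {d : Fin c → ℕ}
    {f : Fin c → MvPolynomial (Fin (r + 1)) ℂ} (h : IsFreeCI w d f) {x : Fin (r + 1) → ℂ}
    (hx : x ≠ 0) (hf : ∀ j, eval x (f j) = 0) (α : ZMod N) : ∃ i, x i ≠ 0 ∧ w i ≠ α := by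
  by_contra hcon
  push Not at hcon
  have hprim := Complex.isPrimitiveRoot_exp N (by omega)
  have h1 := h.free x hx hf _ ((Complex.exp (2 * Real.pi * Complex.I / N)) ^ α.val)
    hprim.pow_eq_one (by
      funext i
      by_cases hi : x i = 0
      · simp [act, hi]
      · simp [act, hcon i hi])
  have := hprim.eq_orderOf
  rw [h1, orderOf_one] at this
  omega

lemma eval_zero_of_homogeneous {g : MvPolynomial (Fin (r + 1)) ℂ} {d : ℕ}
    (h : g.IsHomogeneous d) (hd : 0 < d) : eval 0 g = 0 := by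
  rw [eval_eq']
  refine Finset.sum_eq_zero fun u hu => ?_
  have e1 := h (mem_support_iff.1 hu)
  rw [Finsupp.weight_apply, Finsupp.sum_fintype _ _ (by simp)] at e1
  obtain ⟨i, _, hi⟩ := Finset.exists_ne_zero_of_sum_ne_zero (e1.trans_ne hd.ne')
  have hi : u i ≠ 0 := by
    intro h0
    apply hi
    simp [h0]
  rw [Finset.prod_eq_zero (Finset.mem_univ i) (by simp [hi]), mul_zero]

/-- Freeness forces `N ∣ d_j` for some `j` whose equation is invariant. -/
lemma IsFreeCI.exists_dvd (hN : 2 ≤ N) (hc : c ≤ r) {w : Fin (r + 1) → ZMod N} {d : Fin c → ℕ}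
    (hw : ∀ i j, w i = w j ∨ IsUnit (w i - w j))
    {f : Fin c → MvPolynomial (Fin (r + 1)) ℂ} (h : IsFreeCI w d f) :
    ∃ j, N ∣ d j ∧ IsWeightedHomogeneous w (f j) 0 := by
  classical
  haveI : NeZero N := ⟨by omega⟩
  choose ω hω using h.semi_invariant
  by_contra hcon
  push Not at hcon
  let J : ZMod N → Finset (Fin c) := fun α => Finset.univ.filter fun j => (d j : ZMod N) * α = ω j
  let V : ZMod N → Finset (Fin (r + 1)) := fun α => Finset.univ.filter fun i => w i = α
  have hdisj : ∀ α ∈ Finset.univ.image w, ∀ β ∈ Finset.univ.image w, α ≠ β →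
      Disjoint (J α) (J β) := by
    intro α hα β hβ hne
    rw [Finset.disjoint_left]
    intro j hj hj'
    simp only [J, Finset.mem_filter, Finset.mem_univ, true_and] at hj hj'
    simp only [Finset.mem_image, Finset.mem_univ, true_and] at hα hβ
    obtain ⟨i, rfl⟩ := hα
    obtain ⟨i', rfl⟩ := hβ
    have hu := (hw i i').resolve_left hne
    have h0 : (d j : ZMod N) = 0 := by
      have : (d j : ZMod N) * (w i - w i') = 0 := by linear_combination hj - hj'
      exact (hu.mul_left_eq_zero).1 this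
    have h1 : N ∣ d j := (ZMod.natCast_eq_zero_iff _ _).1 h0
    apply hcon j h1
    have : ω j = 0 := by rw [← hj, h0, zero_mul]
    rw [← this]
    exact hω j
  have hsum : ∑ α ∈ Finset.univ.image w, (J α).card < ∑ α ∈ Finset.univ.image w, (V α).card := by
    have h1 : ∑ α ∈ Finset.univ.image w, (V α).card = r + 1 := by
      have := Finset.card_eq_sum_card_image w (Finset.univ : Finset (Fin (r + 1)))
      rw [Finset.card_univ, Fintype.card_fin] at this
      exact this.symm
    have h2 : ∑ α ∈ Finset.univ.image w, (J α).card ≤ c := by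
      rw [← Finset.card_biUnion (by
        intro α hα β hβ hne
        exact hdisj α hα β hβ hne)]
      have := Finset.card_le_univ ((Finset.univ.image w).biUnion J)
      rwa [Fintype.card_fin] at this
    omega
  obtain ⟨α, _, hα⟩ := Finset.exists_lt_of_sum_lt hsum
  -- restrict to the variables of weight `α`
  let σ := {i : Fin (r + 1) // w i = α}
  let ext : (σ → ℂ) → (Fin (r + 1) → ℂ) := fun x i => if hi : w i = α then x ⟨i, hi⟩ else 0
  let res : MvPolynomial (Fin (r + 1)) ℂ →ₐ[ℂ] MvPolynomial σ ℂ :=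
    aeval fun i => if hi : w i = α then X ⟨i, hi⟩ else 0
  have hres : ∀ (x : σ → ℂ) (g : MvPolynomial (Fin (r + 1)) ℂ),
      eval x (res g) = eval (ext x) g := by
    intro x g
    have : ((aeval x : MvPolynomial σ ℂ →ₐ[ℂ] ℂ).comp res) = aeval (ext x) := by
      ext i
      by_cases hi : w i = α
      · simp [res, ext, hi]
      · simp [res, ext, hi]
    have h := congrArg (fun φ : MvPolynomial (Fin (r + 1)) ℂ →ₐ[ℂ] ℂ => φ g) this
    simpa [aeval_eq_eval] using h
  have hcard : Nat.card σ = (V α).card := by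
    rw [Nat.card_eq_fintype_card, Fintype.card_subtype]
  obtain ⟨x, hx, hx'⟩ := exists_common_zero (σ := σ) (J α) (fun j => res (f j)) (by
    intro j _
    rw [hres]
    have h0 : ext 0 = 0 := by
      funext i
      simp only [ext]
      split_ifs <;> rfl
    rw [h0]
    exact eval_zero_of_homogeneous (h.homogeneous j) (h.degree_pos j)) (by rw [hcard]; exact hα)
  have hext : ext x ≠ 0 := by
    intro h0
    apply hx
    funext i
    have := congrFun h0 i.1
    simpa [ext, i.2] using this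
  have hsupp : ∀ i, ext x i ≠ 0 → w i = α := by
    intro i hi
    by_contra hne
    exact hi (by simp [ext, hne])
  have hzero : ∀ j, eval (ext x) (f j) = 0 := by
    intro j
    by_cases hj : j ∈ J α
    · rw [← hres]
      exact hx' j hj
    · by_contra hne
      apply hj
      simp only [J, Finset.mem_filter, Finset.mem_univ, true_and]
      exact weight_of_support (h.homogeneous j) (hω j) hsupp hne
  obtain ⟨i, hi, hi'⟩ := h.two_weights hN hext hzero α
  exact hi' (hsupp i hi)

end Pool.Agent.Helper10.FQ
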