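import Mathlib

/-!
# Lattice points of a coset in a triangle generate the lattice
-/

set_option autoImplicit false

namespace Pool.Agent.Helper10.FQ

variable {N : ℕ}

/-- The points of the triangle `b, c ≥ 0`, `b + c ≤ m` in the coset `b p + c q = χ`. -/
def InTri (p q χ : ZMod N) (m : ℤ) (z : ℤ × ℤ) : Prop :=
  0 ≤ z.1 ∧ 0 ≤ z.2 ∧ z.1 + z.2 ≤ m ∧ (z.1 : ZMod N) * p + (z.2 : ZMod N) * q = χ

lemma zval [NeZero N] (a : ZMod N) : ((a.val : ℤ) : ZMod N) = a := by
  simp

lemma exists_residue [NeZero N] {u : ZMod N} (hu : IsUnit u) (χ : ZMod N) :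
    ∃ c : ℤ, 0 ≤ c ∧ c ≤ N - 1 ∧ (c : ZMod N) * u = χ := by
  obtain ⟨v, hv⟩ := hu.exists_left_inv
  refine ⟨((χ * v).val : ℤ), by positivity, ?_, ?_⟩
  · have := ZMod.val_lt (χ * v)
    omega
  · rw [zval, mul_assoc, hv, mul_one]

/-- The twice signed area. -/
def det (P Q R : ℤ × ℤ) : ℤ := (Q.1 - P.1) * (R.2 - P.2) - (Q.2 - P.2) * (R.1 - P.1)

lemma exists_noncollinear (hN : 2 ≤ N) {p q χ : ZMod N} (hp : IsUnit p) (hq : IsUnit q)
    (hpq : IsUnit (p - q)) {m : ℤ} (hm : (N : ℤ) ≤ m) :
    ∃ P Q R, InTri p q χ m P ∧ InTri p q χ m Q ∧ InTri p q χ m R ∧ det P Q R ≠ 0 := by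
  haveI : NeZero N := ⟨by omega⟩
  have hN' : (2 : ℤ) ≤ N := by exact_mod_cast hN
  obtain ⟨c0, h0, h0', e0⟩ := exists_residue hq χ
  obtain ⟨c1, h1, h1', e1⟩ := exists_residue hq (χ - p)
  obtain ⟨b0, k0, k0', d0⟩ := exists_residue hp χ
  obtain ⟨b1, k1, k1', d1⟩ := exists_residue hp (χ - q)
  obtain ⟨a0, l0, l0', g0⟩ := exists_residue hpq (χ - (m : ZMod N) * q)
  obtain ⟨a1, l1, l1', g1⟩ := exists_residue hpq (χ - ((m - 1 : ℤ) : ZMod N) * q)
  by_contra hcon
  push Not at hcon
  have tP0 : InTri p q χ m (0, c0) := ⟨le_rfl, h0, by simp only; omega, by simpa using e0⟩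
  have tP1 : InTri p q χ m (1, c1) := ⟨zero_le_one, h1, by simp only; omega, by
    simp only [Int.cast_one, one_mul, e1]; ring⟩
  have tQ0 : InTri p q χ m (b0, 0) := ⟨k0, le_rfl, by simp only; omega, by simpa using d0⟩
  have tQ1 : InTri p q χ m (b1, 1) := ⟨k1, zero_le_one, by simp only; omega, by
    simp only [Int.cast_one, one_mul, d1]; ring⟩
  have tR0 : InTri p q χ m (a0, m - a0) := ⟨l0, by simp only; omega, by simp only; omega, by
    push_cast
    linear_combination g0⟩
  have tR1 : InTri p q χ m (a1, m - 1 - a1) := ⟨l1, by simp only; omega, by simp only; omega, by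
    push_cast at g1 ⊢
    linear_combination g1⟩
  have f1 := hcon _ _ _ tP0 tP1 tQ0
  have f2 := hcon _ _ _ tP0 tP1 tQ1
  have f3 := hcon _ _ _ tP0 tP1 tR0
  have f4 := hcon _ _ _ tP0 tP1 tR1
  simp only [det] at f1 f2 f3 f4
  -- slope
  have hs : (c1 - c0) * (b1 - b0) = 1 := by linarith
  rcases Int.eq_one_or_neg_one_of_mul_eq_one hs with h | h
  · have hb0 : b0 + c0 = 0 := by rw [h] at f1; linarith
    have hc0 : c0 = 0 := by omega
    rw [h] at f3 f4
    omega
  · rw [h] at f3 f4
    omega

/-- An additive subgroup containing the differences of the points of the coset in the triangle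
contains the whole lattice. -/
lemma lattice_mem (hN : 2 ≤ N) {p q χ : ZMod N} (hp : IsUnit p) (hq : IsUnit q)
    (hpq : IsUnit (p - q)) {m : ℤ} (hm : (N : ℤ) ≤ m) (S : AddSubgroup (ℤ × ℤ))
    (hS : ∀ P Q, InTri p q χ m P → InTri p q χ m Q → Q - P ∈ S) (z : ℤ × ℤ)
    (hz : (z.1 : ZMod N) * p + (z.2 : ZMod N) * q = 0) : z ∈ S := by
  classical
  -- a non-degenerate triangle of minimal area
  have hex : ∃ n : ℕ, ∃ P Q R, InTri p q χ m P ∧ InTri p q χ m Q ∧ InTri p q χ m R ∧
      0 < n ∧ det P Q R = n := by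
    obtain ⟨P, Q, R, h1, h2, h3, h4⟩ := exists_noncollinear hN hp hq hpq hm (χ := χ)
    rcases lt_or_gt_of_ne h4 with h | h
    · refine ⟨(det P R Q).toNat, P, R, Q, h1, h3, h2, ?_, ?_⟩
      · have : det P R Q = - det P Q R := by simp only [det]; ring
        omega
      · have : det P R Q = - det P Q R := by simp only [det]; ring
        omega
    · exact ⟨(det P Q R).toNat, P, Q, R, h1, h2, h3, by omega, by omega⟩
  obtain ⟨P, Q, R, hP, hQ, hR, hD0, hD⟩ := Nat.find_spec hex
  set D := Nat.find hex with hDdef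
  have hmin : ∀ P Q R, InTri p q χ m P → InTri p q χ m Q → InTri p q χ m R →
      0 < det P Q R → (D : ℤ) ≤ det P Q R := by
    intro P Q R h1 h2 h3 h4
    have : D ≤ (det P Q R).toNat := Nat.find_min' hex ⟨P, Q, R, h1, h2, h3, by omega, by omega⟩
    omega
  have hDz : (0 : ℤ) < D := by exact_mod_cast hD0
  obtain ⟨P1, P2⟩ := P
  obtain ⟨Q1, Q2⟩ := Q
  obtain ⟨R1, R2⟩ := R
  obtain ⟨z1, z2⟩ := z
  simp only [det] at hD
  -- coordinates u = Q - P, v = R - P
  have hu := hS _ _ hP hQ
  have hv := hS _ _ hP hR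
  set u1 := Q1 - P1 with hu1
  set u2 := Q2 - P2 with hu2
  set v1 := R1 - P1 with hv1
  set v2 := R2 - P2 with hv2
  -- D z = α u + β v
  set α := z1 * v2 - z2 * v1 with hα
  set β := u1 * z2 - u2 * z1 with hβ
  set i := α / D with hi
  set j := β / D with hj
  set α' := α % D with hα'
  set β' := β % D with hβ'
  have ea : α = D * i + α' := by rw [hi, hα']; exact (Int.mul_ediv_add_emod α D).symm
  have eb : β = D * j + β' := by rw [hj, hβ']; exact (Int.mul_ediv_add_emod β D).symm
  have a0 : 0 ≤ α' := Int.emod_nonneg _ hDz.ne'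
  have a1 : α' < D := Int.emod_lt_of_pos _ hDz
  have b0 : 0 ≤ β' := Int.emod_nonneg _ hDz.ne'
  have b1 : β' < D := Int.emod_lt_of_pos _ hDz
  -- z' = z - i u - j v
  set x1 := z1 - i * u1 - j * v1 with hx1
  set x2 := z2 - i * u2 - j * v2 with hx2
  have dx1 : D * x1 = α' * u1 + β' * v1 := by
    have h1 : (D : ℤ) * z1 = α * u1 + β * v1 := by rw [hα, hβ, ← hD]; ring
    rw [hx1]
    rw [ea, eb] at h1
    linear_combination h1
  have dx2 : D * x2 = α' * u2 + β' * v2 := by
    have h1 : (D : ℤ) * z2 = α * u2 + β * v2 := by rw [hα, hβ, ← hD]; ring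
    rw [hx2]
    rw [ea, eb] at h1
    linear_combination h1
  have detuv : u1 * v2 - u2 * v1 = D := hD
  have dux : u1 * x2 - u2 * x1 = β' := by
    have : (D : ℤ) * (u1 * x2 - u2 * x1) = D * β' := by
      linear_combination u1 * dx2 - u2 * dx1 + β' * detuv
    exact mul_left_cancel₀ hDz.ne' this
  have dxv : x1 * v2 - x2 * v1 = α' := by
    have : (D : ℤ) * (x1 * v2 - x2 * v1) = D * α' := by
      linear_combination v2 * dx1 - v1 * dx2 + α' * detuv
    exact mul_left_cancel₀ hDz.ne' this
  obtain ⟨P1n, P2n, Ps, Pe⟩ := hP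
  obtain ⟨Q1n, Q2n, Qs, Qe⟩ := hQ
  obtain ⟨R1n, R2n, Rs, Re⟩ := hR
  simp only at P1n P2n Ps Pe Q1n Q2n Qs Qe R1n R2n Rs Re hz
  have hP : InTri p q χ m (P1, P2) := ⟨P1n, P2n, Ps, Pe⟩
  have hQ : InTri p q χ m (Q1, Q2) := ⟨Q1n, Q2n, Qs, Qe⟩
  have hR : InTri p q χ m (R1, R2) := ⟨R1n, R2n, Rs, Re⟩
  have eu : (u1 : ZMod N) * p + (u2 : ZMod N) * q = 0 := by
    rw [hu1, hu2]; push_cast; linear_combination Qe - Pe
  have ev : (v1 : ZMod N) * p + (v2 : ZMod N) * q = 0 := by
    rw [hv1, hv2]; push_cast; linear_combination Re - Pe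
  have ex : (x1 : ZMod N) * p + (x2 : ZMod N) * q = 0 := by
    rw [hx1, hx2]; push_cast
    linear_combination hz - (i : ZMod N) * eu - (j : ZMod N) * ev
  have key : α' = 0 ∧ β' = 0 := by
    by_contra hne
    rcases le_or_gt (α' + β') D with hle | hgt
    · -- W = P + x
      have hW : InTri p q χ m (P1 + x1, P2 + x2) := by
        refine ⟨?_, ?_, ?_, ?_⟩
        · have : (0 : ℤ) ≤ D * (P1 + x1) := by
            have : (D : ℤ) * (P1 + x1) = (D - α' - β') * P1 + α' * Q1 + β' * R1 := by
              linear_combination dx1 + α' * hu1 + β' * hv1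
            rw [this]
            have : 0 ≤ D - α' - β' := by omega
            positivity
          exact nonneg_of_mul_nonneg_right this hDz
        · have : (0 : ℤ) ≤ D * (P2 + x2) := by
            have : (D : ℤ) * (P2 + x2) = (D - α' - β') * P2 + α' * Q2 + β' * R2 := by
              linear_combination dx2 + α' * hu2 + β' * hv2
            rw [this]
            have : 0 ≤ D - α' - β' := by omega
            positivity
          exact nonneg_of_mul_nonneg_right this hDz
        · have : (0 : ℤ) ≤ D * (m - (P1 + x1 + (P2 + x2))) := by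
            have : (D : ℤ) * (m - (P1 + x1 + (P2 + x2))) = (D - α' - β') * (m - (P1 + P2)) +
                α' * (m - (Q1 + Q2)) + β' * (m - (R1 + R2)) := by
              linear_combination -dx1 - dx2 - α' * hu1 - β' * hv1 - α' * hu2 - β' * hv2
            rw [this]
            have h1 : 0 ≤ D - α' - β' := by omega
            have h2 : 0 ≤ m - (P1 + P2) := by omega
            have h3 : 0 ≤ m - (Q1 + Q2) := by omega
            have h4 : 0 ≤ m - (R1 + R2) := by omega
            positivity
          have := nonneg_of_mul_nonneg_right this hDz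
          simp only
          omega
        · push_cast; linear_combination Pe + ex
      rcases eq_or_ne β' 0 with hb | hb
      · have ha : α' ≠ 0 := fun h => hne ⟨h, hb⟩
        have := hmin _ _ _ hP hW hR (by simp only [det]; rw [← hv1, ← hv2]; ring_nf; ring_nf at dxv; omega)
        simp only [det] at this
        rw [← hv1, ← hv2] at this
        ring_nf at this dxv
        omega
      · have := hmin _ _ _ hP hQ hW (by simp only [det]; rw [← hu1, ← hu2]; ring_nf; ring_nf at dux; omega)
        simp only [det] at this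
        rw [← hu1, ← hu2] at this
        ring_nf at this dux
        omega
    · -- W = P + u + v - x
      have hW : InTri p q χ m (P1 + (u1 + v1 - x1), P2 + (u2 + v2 - x2)) := by
        refine ⟨?_, ?_, ?_, ?_⟩
        · have : (0 : ℤ) ≤ D * (P1 + (u1 + v1 - x1)) := by
            have : (D : ℤ) * (P1 + (u1 + v1 - x1)) =
                (α' + β' - D) * P1 + (D - α') * Q1 + (D - β') * R1 := by
              linear_combination -dx1 + (D - α') * hu1 + (D - β') * hv1
            rw [this]
            have h1 : 0 ≤ α' + β' - D := by omega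
            have h2 : 0 ≤ D - α' := by omega
            have h3 : 0 ≤ D - β' := by omega
            positivity
          exact nonneg_of_mul_nonneg_right this hDz
        · have : (0 : ℤ) ≤ D * (P2 + (u2 + v2 - x2)) := by
            have : (D : ℤ) * (P2 + (u2 + v2 - x2)) =
                (α' + β' - D) * P2 + (D - α') * Q2 + (D - β') * R2 := by
              linear_combination -dx2 + (D - α') * hu2 + (D - β') * hv2
            rw [this]
            have h1 : 0 ≤ α' + β' - D := by omega
            have h2 : 0 ≤ D - α' := by omega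
            have h3 : 0 ≤ D - β' := by omega
            positivity
          exact nonneg_of_mul_nonneg_right this hDz
        · have : (0 : ℤ) ≤ D * (m - (P1 + (u1 + v1 - x1) + (P2 + (u2 + v2 - x2)))) := by
            have : (D : ℤ) * (m - (P1 + (u1 + v1 - x1) + (P2 + (u2 + v2 - x2)))) =
                (α' + β' - D) * (m - (P1 + P2)) +
                (D - α') * (m - (Q1 + Q2)) + (D - β') * (m - (R1 + R2)) := by
              linear_combination dx1 + dx2 - (D - α') * (hu1 + hu2) - (D - β') * (hv1 + hv2)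
            rw [this]
            have h1 : 0 ≤ α' + β' - D := by omega
            have h5 : 0 ≤ D - α' := by omega
            have h6 : 0 ≤ D - β' := by omega
            have h2 : 0 ≤ m - (P1 + P2) := by omega
            have h3 : 0 ≤ m - (Q1 + Q2) := by omega
            have h4 : 0 ≤ m - (R1 + R2) := by omega
            positivity
          have := nonneg_of_mul_nonneg_right this hDz
          simp only
          omega
        · push_cast; linear_combination Pe + eu + ev - ex
      have := hmin _ _ _ hP hQ hW (by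
        simp only [det]; rw [← hu1, ← hu2]; ring_nf; ring_nf at dux detuv; omega)
      simp only [det] at this
      rw [← hu1, ← hu2] at this
      ring_nf at this dux detuv
      omega
  have hx : x1 = 0 ∧ x2 = 0 := by
    rw [key.1, key.2] at dx1 dx2
    simp only [zero_mul, add_zero, mul_eq_zero] at dx1 dx2
    exact ⟨dx1.resolve_left hDz.ne', dx2.resolve_left hDz.ne'⟩
  have : ((z1, z2) : ℤ × ℤ) = i • (u1, u2) + j • (v1, v2) := by
    ext
    · simp only [Prod.smul_mk, smul_eq_mul, Prod.mk_add_mk]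
      linarith [hx.1, hx1]
    · simp only [Prod.smul_mk, smul_eq_mul, Prod.mk_add_mk]
      linarith [hx.2, hx2]
  rw [this]
  exact S.add_mem (S.zsmul_mem hu i) (S.zsmul_mem hv j)

end Pool.Agent.Helper10.FQ
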