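import Pool.Agent.Helper10.FQ.Geom

/-!
# Free cyclic quotients of complete intersections: very ampleness
-/

set_option autoImplicit false

namespace Pool.Agent.Helper10.FQ

open MvPolynomial

variable {r c N : ℕ}

/-- Scale the coordinates of weight `α` by `s` and the others by `t`. -/
def scale2 (w : Fin (r + 1) → ZMod N) (α : ZMod N) (s t : ℂ) (x : Fin (r + 1) → ℂ) :
    Fin (r + 1) → ℂ :=
  fun i => if w i = α then s * x i else t * x i

lemma eval_scaled_pderiv (f : MvPolynomial (Fin (r + 1)) ℂ) (x : Fin (r + 1) → ℂ)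
    (i : Fin (r + 1)) : eval x (pderiv i f) * x i =
      ∑ u ∈ f.support, coeff u f * u i * ∏ k, x k ^ u k := by
  have h1 : X i * pderiv i f = ∑ u ∈ f.support, (u i) • monomial u (coeff u f) := by
    conv_lhs => rw [← support_sum_monomial_coeff f]
    rw [map_sum, Finset.mul_sum]
    exact Finset.sum_congr rfl fun u _ => X_mul_pderiv_monomial
  have h2 := congrArg (eval x) h1
  rw [map_mul, eval_X, mul_comm] at h2
  rw [h2, map_sum]
  refine Finset.sum_congr rfl fun u _ => ?_
  rw [map_nsmul, eval_monomial, Finsupp.prod_fintype _ _ (by simp), nsmul_eq_mul]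
  ring

lemma diffAt_scaled (f : MvPolynomial (Fin (r + 1)) ℂ) (x ν : Fin (r + 1) → ℂ) :
    diffAt f x (fun i => ν i * x i) =
      ∑ u ∈ f.support, coeff u f * (∑ i, u i * ν i) * ∏ k, x k ^ u k := by
  have h : ∀ i, eval x (pderiv i f) * (ν i * x i) =
      ∑ u ∈ f.support, coeff u f * (u i * ν i) * ∏ k, x k ^ u k := by
    intro i
    have := eval_scaled_pderiv f x i
    rw [mul_left_comm, this, Finset.mul_sum]
    exact Finset.sum_congr rfl fun u _ => by ring
  rw [diffAt, Finset.sum_congr rfl fun i _ => h i, Finset.sum_comm]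
  refine Finset.sum_congr rfl fun u _ => ?_
  rw [← Finset.sum_mul, ← Finset.mul_sum]

/-- Expansion of a semi-invariant form on points supported in two weight classes. -/
lemma expand {w : Fin (r + 1) → ZMod N} {f : MvPolynomial (Fin (r + 1)) ℂ} {d : ℕ}
    {ω α β : ZMod N} (h1 : f.IsHomogeneous d) (h2 : IsWeightedHomogeneous w f ω)
    {x : Fin (r + 1) → ℂ} (hx : ∀ i, x i ≠ 0 → w i = α ∨ w i = β) :
    ∃ F : ℕ → ℂ, (∀ a, F a ≠ 0 → a ≤ d ∧ (a : ZMod N) * (α - β) = ω - d * β) ∧
      (∀ s t : ℂ, eval (scale2 w α s t x) f = ∑ a ∈ Finset.range (d + 1), F a * s ^ a * t ^ (d - a)) ∧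
      ∀ p q : ℂ, diffAt f x (scale2 w α p q x) =
        ∑ a ∈ Finset.range (d + 1), F a * (a * p + (d - a : ℕ) * q) := by
  classical
  let A : (Fin (r + 1) →₀ ℕ) → ℕ := fun u => ∑ i ∈ Finset.univ.filter (fun i => w i = α), u i
  have hdeg : ∀ u ∈ f.support, ∑ i, u i = d := by
    intro u hu
    have e1 := h1 (mem_support_iff.1 hu)
    rw [Finsupp.weight_apply, Finsupp.sum_fintype _ _ (by simp)] at e1
    simpa using e1
  have hsplit : ∀ u ∈ f.support,
      A u + ∑ i ∈ Finset.univ.filter (fun i => ¬ w i = α), u i = d := by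
    intro u hu
    rw [← hdeg u hu]
    exact Finset.sum_filter_add_sum_filter_not _ _ _
  have hAle : ∀ u ∈ f.support, A u ≤ d := fun u hu => by
    have := hsplit u hu
    omega
  let F : ℕ → ℂ := fun a => ∑ u ∈ f.support.filter (fun u => A u = a), coeff u f * ∏ k, x k ^ u k
  refine ⟨F, ?_, ?_, ?_⟩
  · intro a ha
    obtain ⟨u, hu, hne⟩ := Finset.exists_ne_zero_of_sum_ne_zero ha
    rw [Finset.mem_filter] at hu
    obtain ⟨hu, rfl⟩ := hu
    refine ⟨hAle u hu, ?_⟩
    have hprod : ∏ i, x i ^ u i ≠ 0 := fun h => hne (by rw [h, mul_zero])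
    have hxu : ∀ i, u i ≠ 0 → w i = α ∨ w i = β := by
      intro i hi
      have : x i ^ u i ≠ 0 := fun h => hprod (Finset.prod_eq_zero (Finset.mem_univ i) h)
      exact hx i fun h => this (by rw [h, zero_pow hi])
    have e2 := h2 (mem_support_iff.1 hu)
    rw [Finsupp.weight_apply, Finsupp.sum_fintype _ _ (by simp)] at e2
    rw [← Finset.sum_filter_add_sum_filter_not Finset.univ (fun i => w i = α)] at e2
    have e3 : ∑ i ∈ Finset.univ.filter (fun i => w i = α), u i • w i = (A u : ZMod N) * α := by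
      rw [Finset.sum_congr rfl (g := fun i => u i • α) fun i hi => by
        rw [(Finset.mem_filter.1 hi).2], ← Finset.sum_smul, nsmul_eq_mul]
    have e4 : ∑ i ∈ Finset.univ.filter (fun i => ¬ w i = α), u i • w i =
        ((d - A u : ℕ) : ZMod N) * β := by
      have : d - A u = ∑ i ∈ Finset.univ.filter (fun i => ¬ w i = α), u i := by
        have := hsplit u hu
        omega
      rw [this, Finset.sum_congr rfl (g := fun i => u i • β) fun i hi => by
        by_cases h0 : u i = 0
        · simp [h0]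
        · rw [(hxu i h0).resolve_left (Finset.mem_filter.1 hi).2],
        ← Finset.sum_smul, nsmul_eq_mul]
    rw [e3, e4, Nat.cast_sub (hAle u hu)] at e2
    linear_combination e2
  · intro s t
    have h3 : ∀ u ∈ f.support, coeff u f * ∏ k, (scale2 w α s t x) k ^ u k =
        (coeff u f * ∏ k, x k ^ u k) * s ^ A u * t ^ (d - A u) := by
      intro u hu
      have e1 : ∏ k, (scale2 w α s t x) k ^ u k =
          (∏ k, (if w k = α then s else t) ^ u k) * ∏ k, x k ^ u k := by
        rw [← Finset.prod_mul_distrib]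
        refine Finset.prod_congr rfl fun k _ => ?_
        rw [← mul_pow]
        congr 1
        simp only [scale2]
        split_ifs <;> rfl
      have e2 : ∏ k, (if w k = α then s else t) ^ u k = s ^ A u * t ^ (d - A u) := by
        rw [← Finset.prod_filter_mul_prod_filter_not Finset.univ (fun k => w k = α)]
        congr 1
        · rw [Finset.prod_congr rfl (g := fun i => s ^ u i) fun i hi => by
            rw [if_pos (Finset.mem_filter.1 hi).2], Finset.prod_pow_eq_pow_sum]
        · have : d - A u = ∑ i ∈ Finset.univ.filter (fun i => ¬ w i = α), u i := by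
            have := hsplit u hu
            omega
          rw [this, Finset.prod_congr rfl (g := fun i => t ^ u i) fun i hi => by
            rw [if_neg (Finset.mem_filter.1 hi).2], Finset.prod_pow_eq_pow_sum]
      rw [e1, e2]
      ring
    rw [eval_eq', Finset.sum_congr rfl h3]
    rw [← Finset.sum_fiberwise_of_maps_to (s := f.support) (t := Finset.range (d + 1)) (g := A)
      fun u hu => Finset.mem_range.2 (Nat.lt_succ_of_le (hAle u hu))]
    refine Finset.sum_congr rfl fun a _ => ?_
    simp only [F, Finset.sum_mul]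
    refine Finset.sum_congr rfl fun u hu => ?_
    rw [(Finset.mem_filter.1 hu).2]
  · intro p q
    have hv : scale2 w α p q x = fun i => (if w i = α then p else q) * x i := by
      funext i
      simp only [scale2]
      split_ifs <;> rfl
    rw [hv, diffAt_scaled]
    have h3 : ∀ u ∈ f.support, coeff u f * (∑ i, u i * (if w i = α then p else q)) *
        ∏ k, x k ^ u k = (coeff u f * ∏ k, x k ^ u k) * (A u * p + (d - A u : ℕ) * q) := by
      intro u hu
      have e1 : ∑ i, (u i : ℂ) * (if w i = α then p else q) = A u * p + (d - A u : ℕ) * q := by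
        rw [← Finset.sum_filter_add_sum_filter_not Finset.univ (fun i => w i = α)]
        congr 1
        · rw [Finset.sum_congr rfl (g := fun i => (u i : ℂ) * p) fun i hi => by
            rw [if_pos (Finset.mem_filter.1 hi).2], ← Finset.sum_mul]
          simp only [A]
          push_cast
          rfl
        · have : d - A u = ∑ i ∈ Finset.univ.filter (fun i => ¬ w i = α), u i := by
            have := hsplit u hu
            omega
          rw [this, Finset.sum_congr rfl (g := fun i => (u i : ℂ) * q) fun i hi => by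
            rw [if_neg (Finset.mem_filter.1 hi).2], ← Finset.sum_mul]
          push_cast
          rfl
      rw [e1]
      ring
    rw [Finset.sum_congr rfl h3]
    rw [← Finset.sum_fiberwise_of_maps_to (s := f.support) (t := Finset.range (d + 1)) (g := A)
      fun u hu => Finset.mem_range.2 (Nat.lt_succ_of_le (hAle u hu))]
    refine Finset.sum_congr rfl fun a _ => ?_
    simp only [F, Finset.sum_mul]
    refine Finset.sum_congr rfl fun u hu => ?_
    rw [(Finset.mem_filter.1 hu).2]

lemma natCast_eq_of_lt {a b : ℕ} (ha : a < N) (hb : b < N) (h : (a : ZMod N) = b) : a = b := by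
  rw [ZMod.natCast_eq_natCast_iff] at h
  exact Nat.ModEq.eq_of_lt_of_lt h ha hb

/-- The small degree case: on a point supported in two weight classes some equation becomes
`P (s ^ N - t ^ N)`, `P ≠ 0`. -/
lemma small_case (hN : 2 ≤ N) (hc : c ≤ r) {w : Fin (r + 1) → ZMod N} {d : Fin c → ℕ}
    (hw : ∀ i j, w i = w j ∨ IsUnit (w i - w j))
    {f : Fin c → MvPolynomial (Fin (r + 1)) ℂ} (h : IsFreeCI w d f) {m : ℕ}
    (hm : ∑ j, (d j - 1) + 1 ≤ m) (hm2 : m + 1 < 2 * N) {x : Fin (r + 1) → ℂ} (hx0 : x ≠ 0)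
    (hx : ∀ j, eval x (f j) = 0) {α β : ZMod N} (hu : IsUnit (α - β))
    (hab : ∀ i, x i ≠ 0 → w i = α ∨ w i = β) :
    ∃ (j : Fin c) (P : ℂ), P ≠ 0 ∧
      (∀ s t : ℂ, eval (scale2 w α s t x) (f j) = P * (s ^ N - t ^ N)) ∧
      ∀ p q : ℂ, diffAt (f j) x (scale2 w α p q x) = P * (N * (p - q)) := by
  classical
  obtain ⟨j0, hj0, hω0⟩ := h.exists_dvd hN hc hw
  have hd0 : N ≤ d j0 := Nat.le_of_dvd (h.degree_pos j0) hj0
  have hsum := Finset.add_sum_erase Finset.univ (fun j => d j - 1) (Finset.mem_univ j0)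
  have hdj0 : d j0 = N := by
    obtain ⟨e, he⟩ := hj0
    have h1 : e ≠ 0 := by
      rintro rfl
      have := h.degree_pos j0
      omega
    have h2 : e < 2 := by
      by_contra h2
      have : N * 2 ≤ N * e := Nat.mul_le_mul_left _ (by omega)
      omega
    have : e = 1 := by omega
    rw [he, this, mul_one]
  have hdj : ∀ j, j ≠ j0 → d j < N := by
    intro j hj
    have h1 : d j - 1 ≤ ∑ j ∈ Finset.univ.erase j0, (d j - 1) :=
      Finset.single_le_sum (f := fun j => d j - 1) (fun _ _ => Nat.zero_le _)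
        (Finset.mem_erase.2 ⟨hj, Finset.mem_univ j⟩)
    omega
  have hs1 : scale2 w α 1 1 x = x := by
    funext i
    simp [scale2]
  obtain ⟨F, hF1, hF2, hF3⟩ := expand (h.homogeneous j0) hω0 hab
  have hF0 : ∀ a, F a ≠ 0 → a = 0 ∨ a = N := by
    intro a ha
    obtain ⟨h1, h2⟩ := hF1 a ha
    rw [hdj0] at h1 h2
    simp only [ZMod.natCast_self, zero_mul, sub_zero] at h2
    have h3 := (hu.mul_left_eq_zero).1 h2
    rw [ZMod.natCast_eq_zero_iff] at h3
    obtain ⟨e, rfl⟩ := h3
    rcases Nat.eq_zero_or_pos e with he | he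
    · left; simp [he]
    · right
      have : N * e ≤ N * 1 := by omega
      have : e ≤ 1 := Nat.le_of_mul_le_mul_left this (by omega)
      have : e = 1 := by omega
      simp [this]
  have hred : ∀ G : ℕ → ℂ, ∑ a ∈ Finset.range (N + 1), F a * G a = F 0 * G 0 + F N * G N := by
    intro G
    rw [Finset.sum_eq_add_of_mem 0 N (by simp) (by simp) (by omega)]
    intro a _ hne
    by_cases hFa : F a = 0
    · rw [hFa, zero_mul]
    · rcases hF0 a hFa with h | h
      · exact absurd h hne.1
      · exact absurd h hne.2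
  rw [hdj0] at hF2 hF3
  have hF2' : ∀ s t : ℂ, eval (scale2 w α s t x) (f j0) = F 0 * t ^ N + F N * s ^ N := by
    intro s t
    rw [hF2]
    have := hred fun a => s ^ a * t ^ (N - a)
    simp only [pow_zero, one_mul, Nat.sub_zero, Nat.sub_self, mul_one] at this
    rw [← this]
    exact Finset.sum_congr rfl fun a _ => by ring
  have hF3' : ∀ p q : ℂ, diffAt (f j0) x (scale2 w α p q x) = F 0 * (N * q) + F N * (N * p) := by
    intro p q
    rw [hF3]
    have := hred fun a => (a * p + (N - a : ℕ) * q)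
    simp only [Nat.cast_zero, zero_mul, zero_add, Nat.sub_zero, Nat.sub_self, add_zero] at this
    exact this
  have hFF : F 0 = - F N := by
    have := hF2' 1 1
    rw [hs1, hx j0] at this
    simp only [one_pow, mul_one] at this
    exact (neg_eq_of_add_eq_zero_left this.symm).symm
  refine ⟨j0, F N, ?_, ?_, ?_⟩
  · intro hFN
    rw [hFN, neg_zero] at hFF
    -- the point `x' = scale2 w α 1 0 x`
    have hz : ∀ j, eval (scale2 w α 1 0 x) (f j) = 0 := by
      intro j
      by_cases hj : j = j0
      · subst hj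
        rw [hF2', hFF, hFN]
        simp
      · obtain ⟨ω, hω⟩ := h.semi_invariant j
        obtain ⟨G, hG1, hG2, -⟩ := expand (h.homogeneous j) hω hab
        have huniq : ∀ a b, G a ≠ 0 → G b ≠ 0 → a = b := by
          intro a b ha hb
          obtain ⟨a1, a2⟩ := hG1 a ha
          obtain ⟨b1, b2⟩ := hG1 b hb
          have hlt := hdj j hj
          refine natCast_eq_of_lt (N := N) (by omega) (by omega) ?_
          have : ((a : ZMod N) - b) * (α - β) = 0 := by linear_combination a2 - b2
          exact sub_eq_zero.1 ((hu.mul_left_eq_zero).1 this)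
        have hall : ∀ a ∈ Finset.range (d j + 1), G a = 0 := by
          intro a ha
          by_contra hne
          have h1 := hG2 1 1
          rw [hs1, hx j] at h1
          simp only [one_pow, mul_one] at h1
          rw [Finset.sum_eq_single a] at h1
          · exact hne h1.symm
          · intro b _ hba
            by_contra hb
            exact hba (huniq b a hb hne)
          · intro h; exact absurd ha h
        rw [hG2]
        exact Finset.sum_eq_zero fun a ha => by rw [hall a ha]; ring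
    have hne : scale2 w α 1 0 x ≠ 0 := by
      obtain ⟨i, hi, hi'⟩ := h.two_weights hN hx0 hx β
      have hiα := (hab i hi).resolve_right hi'
      intro h0
      have := congrFun h0 i
      simp [scale2, hiα] at this
      exact hi this
    obtain ⟨i, hi, hi'⟩ := h.two_weights hN hne hz α
    simp [scale2, hi'] at hi
  · intro s t
    rw [hF2', hFF]
    ring
  · intro p q
    rw [hF3', hFF]
    ring

lemma le_of_sum (hN : 2 ≤ N) (hc : c ≤ r) {w : Fin (r + 1) → ZMod N} {d : Fin c → ℕ}
    (hw : ∀ i j, w i = w j ∨ IsUnit (w i - w j))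
    {f : Fin c → MvPolynomial (Fin (r + 1)) ℂ} (h : IsFreeCI w d f) {m : ℕ}
    (hm : ∑ j, (d j - 1) + 1 ≤ m) : N ≤ m := by
  obtain ⟨j0, hj0, -⟩ := h.exists_dvd hN hc hw
  have hd0 : N ≤ d j0 := Nat.le_of_dvd (h.degree_pos j0) hj0
  have h1 : d j0 - 1 ≤ ∑ j, (d j - 1) :=
    Finset.single_le_sum (f := fun j => d j - 1) (fun _ _ => Nat.zero_le _) (Finset.mem_univ j0)
  omega

lemma exists_two (hN : 2 ≤ N) {w : Fin (r + 1) → ZMod N} {d : Fin c → ℕ}
    (hw : ∀ i j, w i = w j ∨ IsUnit (w i - w j))
    {f : Fin c → MvPolynomial (Fin (r + 1)) ℂ} (h : IsFreeCI w d f) {x : Fin (r + 1) → ℂ}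
    (hx0 : x ≠ 0) (hx : ∀ j, eval x (f j) = 0) :
    ∃ i j, x i ≠ 0 ∧ x j ≠ 0 ∧ IsUnit (w i - w j) := by
  obtain ⟨i, hi⟩ := Function.ne_iff.1 hx0
  obtain ⟨j, hj, hj'⟩ := h.two_weights hN hx0 hx (w i)
  exact ⟨i, j, hi, hj, (hw i j).resolve_left fun h => hj' h.symm⟩

/-- A section `X_i * b` not vanishing at `x`, when `x i ≠ 0`, and with prescribed factor `X_i`. -/
lemma exists_section_mul (hN : 2 ≤ N) {w : Fin (r + 1) → ZMod N} {d : Fin c → ℕ}
    (hw : ∀ i j, w i = w j ∨ IsUnit (w i - w j))
    {f : Fin c → MvPolynomial (Fin (r + 1)) ℂ} (h : IsFreeCI w d f) {m : ℕ} (hm : N ≤ m)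
    (χ : ZMod N) {x : Fin (r + 1) → ℂ}
    (hx0 : x ≠ 0) (hx : ∀ j, eval x (f j) = 0) (i : Fin (r + 1)) :
    ∃ g, IsSection w m χ (X i * g) ∧ eval x g ≠ 0 := by
  obtain ⟨k, l, hk, hl, hkl⟩ := exists_two hN hw h hx0 hx
  obtain ⟨a, b, hab, he⟩ := exists_pair hN hkl (m := m - 1) (by omega) (χ - w i)
  refine ⟨X k ^ a * X l ^ b, ?_, ?_⟩
  · have := mono_isSection w (m := m) (χ := χ) i k l (a := 1) (b := a) (c := b) (by omega)
      (by push_cast; linear_combination he)
    rw [mono, pow_one, mul_assoc] at this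
    exact this
  · simp only [map_mul, map_pow, eval_X]
    exact mul_ne_zero (pow_ne_zero _ hk) (pow_ne_zero _ hl)

theorem bpf (hN : 2 ≤ N) {w : Fin (r + 1) → ZMod N} {d : Fin c → ℕ}
    (hw : ∀ i j, w i = w j ∨ IsUnit (w i - w j))
    {f : Fin c → MvPolynomial (Fin (r + 1)) ℂ} (h : IsFreeCI w d f) {m : ℕ} (hm : N ≤ m)
    (χ : ZMod N) {x : Fin (r + 1) → ℂ} (hx0 : x ≠ 0) (hx : ∀ j, eval x (f j) = 0) :
    ∃ g, IsSection w m χ g ∧ eval x g ≠ 0 := by
  obtain ⟨i, hi⟩ := Function.ne_iff.1 hx0
  obtain ⟨g, hg, hg'⟩ := exists_section_mul hN hw h hm χ hx0 hx i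
  exact ⟨_, hg, by rw [map_mul, eval_X]; exact mul_ne_zero hi hg'⟩

lemma IsSection.sub_C_mul {w : Fin (r + 1) → ZMod N} {m : ℕ} {χ : ZMod N}
    {g g' : MvPolynomial (Fin (r + 1)) ℂ} (hg : IsSection w m χ g) (hg' : IsSection w m χ g')
    (a : ℂ) : IsSection w m χ (g - C a * g') :=
  ⟨hg.1.sub (hg'.1.C_mul a), hg.2.sub (hg'.2.C_mul a)⟩

theorem separates (hN : 2 ≤ N) (hc : c ≤ r) {w : Fin (r + 1) → ZMod N} {d : Fin c → ℕ}
    (hw : ∀ i j, w i = w j ∨ IsUnit (w i - w j))
    {f : Fin c → MvPolynomial (Fin (r + 1)) ℂ} (h : IsFreeCI w d f) {m : ℕ}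
    (hm : ∑ j, (d j - 1) + 1 ≤ m) (χ : ZMod N) {x y : Fin (r + 1) → ℂ} (hx0 : x ≠ 0)
    (hy0 : y ≠ 0) (hx : ∀ j, eval x (f j) = 0) (hy : ∀ j, eval y (f j) = 0)
    (hxy : ∀ ζ t : ℂ, ζ ^ N = 1 → y ≠ t • act w ζ x) :
    ∃ g, IsSection w m χ g ∧ eval x g = 0 ∧ eval y g ≠ 0 := by
  classical
  haveI : NeZero N := ⟨by omega⟩
  have hNm := le_of_sum hN hc hw h hm
  by_contra hcon
  push Not at hcon
  obtain ⟨g0, hg0, hg0x⟩ := bpf hN hw h hNm χ hx0 hx
  obtain ⟨lam, hlam⟩ : ∃ lam : ℂ, ∀ g, IsSection w m χ g → eval y g = lam * eval x g := by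
    refine ⟨eval y g0 / eval x g0, fun g hg => ?_⟩
    have h1 := hcon _ (hg.sub_C_mul hg0 (eval x g / eval x g0)) (by
      rw [map_sub, map_mul, eval_C, div_mul_cancel₀ _ hg0x, sub_self])
    rw [map_sub, map_mul, eval_C, sub_eq_zero] at h1
    rw [h1]
    ring
  have hlam0 : lam ≠ 0 := by
    rintro rfl
    obtain ⟨g1, hg1, hg1y⟩ := bpf hN hw h hNm χ hy0 hy
    exact hg1y (by rw [hlam _ hg1, zero_mul])
  have hsupp : ∀ i, x i ≠ 0 ↔ y i ≠ 0 := by
    intro i
    constructor
    · intro hi hyi
      obtain ⟨g, hg, hg'⟩ := exists_section_mul hN hw h hNm χ hx0 hx i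
      have := hlam _ hg
      rw [map_mul, map_mul, eval_X, eval_X, hyi, zero_mul] at this
      exact mul_ne_zero hlam0 (mul_ne_zero hi hg') this.symm
    · intro hi hxi
      obtain ⟨g, hg, hg'⟩ := exists_section_mul hN hw h hNm χ hy0 hy i
      have := hlam _ hg
      rw [map_mul, map_mul, eval_X, eval_X, hxi, zero_mul, mul_zero] at this
      exact mul_ne_zero hi hg' this
  -- the ratios
  let ρ : Fin (r + 1) → ℂ := fun i => if x i = 0 then 1 else y i / x i
  have hρ0 : ∀ i, ρ i ≠ 0 := by
    intro i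
    simp only [ρ]
    split_ifs with hi
    · exact one_ne_zero
    · exact div_ne_zero ((hsupp i).1 hi) hi
  have hρ : ∀ i, y i = ρ i * x i := by
    intro i
    simp only [ρ]
    split_ifs with hi
    · have : y i = 0 := by
        by_contra hy
        exact ((hsupp i).2 hy) hi
      rw [this, hi, mul_zero]
    · rw [div_mul_cancel₀ _ hi]
  let τ : Fin (r + 1) → Additive ℂˣ := fun i => Additive.ofMul (Units.mk0 (ρ i) (hρ0 i))
  have hconst : ConstOn w {i | x i ≠ 0} m χ τ (Additive.ofMul (Units.mk0 lam hlam0)) := by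
    intro i hi j hj k hk a b e h1 h2
    have h3 := hlam _ (mono_isSection w i j k h1 h2)
    rw [eval_mono, eval_mono, hρ i, hρ j, hρ k] at h3
    apply Additive.toMul.injective
    apply Units.ext
    simp only [τ, toMul_add, toMul_nsmul, toMul_ofMul, Units.val_mul, Units.val_pow_eq_pow_val,
      Units.val_mk0]
    have h4 : x i ^ a * x j ^ b * x k ^ e ≠ 0 :=
      mul_ne_zero (mul_ne_zero (pow_ne_zero _ hi) (pow_ne_zero _ hj)) (pow_ne_zero _ hk)
    apply mul_right_cancel₀ h4
    rw [← h3]
    ring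
  obtain ⟨i, j, hi, hj, hij⟩ := exists_two hN hw h hx0 hx
  have hNτ : N • (τ j - τ i) = 0 := by
    by_cases hk : ∃ k, x k ≠ 0 ∧ w k ≠ w i ∧ w k ≠ w j
    · obtain ⟨k, hk, hki, hkj⟩ := hk
      exact hconst.nsmul_three hN hNm (i := i) (j := j) (k := k) hi hj hk hij
        ((hw i k).resolve_left fun h => hki h.symm) ((hw j k).resolve_left fun h => hkj h.symm)
    · by_cases hm2 : 2 * N ≤ m + 1
      · exact hconst.nsmul_of_large hN hm2 hi hj hij
      · push Not at hk
        have hab : ∀ k, x k ≠ 0 → w k = w i ∨ w k = w j := by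
          intro k hkx
          by_cases h1 : w k = w i
          · exact Or.inl h1
          · exact Or.inr (hk k hkx h1)
        obtain ⟨j0, P, hP, hP1, -⟩ := small_case hN hc hw h hm (by omega) hx0 hx hij hab
        have hyx : y = scale2 w (w i) (ρ i) (ρ j) x := by
          funext k
          by_cases hxk : x k = 0
          · simp [scale2, hρ k, hxk]
          · simp only [scale2]
            rw [hρ k]
            rcases hab k hxk with h1 | h1
            · rw [if_pos h1]
              have := hconst.same hN hNm hi hj hij (i := k) (j := i) hxk hi h1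
              have := congrArg (fun z : Additive ℂˣ => ((Additive.toMul z : ℂˣ) : ℂ)) this
              simp only [τ, toMul_ofMul, Units.val_mk0] at this
              rw [this]
            · have h2 : w k ≠ w i := by
                rw [h1]
                intro h2
                rw [h2, sub_self] at hij
                haveI : Nontrivial (ZMod N) := ZMod.nontrivial_iff.2 (by omega)
                exact not_isUnit_zero hij
              rw [if_neg h2]
              have := hconst.same hN hNm hi hj hij (i := k) (j := j) hxk hj h1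
              have := congrArg (fun z : Additive ℂˣ => ((Additive.toMul z : ℂˣ) : ℂ)) this
              simp only [τ, toMul_ofMul, Units.val_mk0] at this
              rw [this]
        have h1 := hP1 (ρ i) (ρ j)
        rw [← hyx, hy j0] at h1
        have h2 : ρ i ^ N = ρ j ^ N := by
          have := (mul_eq_zero.1 h1.symm).resolve_left hP
          exact sub_eq_zero.1 this
        rw [nsmul_sub, sub_eq_zero]
        apply Additive.toMul.injective
        apply Units.ext
        simp only [τ, toMul_nsmul, toMul_ofMul, Units.val_pow_eq_pow_val, Units.val_mk0]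
        exact h2.symm
  -- conclusion
  have hji : IsUnit (w j - w i) := by
    have := hij.neg
    rwa [neg_sub] at this
  obtain ⟨u, hu⟩ := hji.exists_left_inv
  set q := ρ j / ρ i with hq
  have hqN : q ^ N = 1 := by
    have := congrArg (fun z : Additive ℂˣ => ((Additive.toMul z : ℂˣ) : ℂ)) hNτ
    simp only [τ, toMul_nsmul, toMul_sub, toMul_ofMul, toMul_zero, Units.val_pow_eq_pow_val,
      Units.val_div_eq_div_val, Units.val_mk0, Units.val_one] at this
    exact this
  have hq0 : q ≠ 0 := div_ne_zero (hρ0 j) (hρ0 i)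
  apply hxy (q ^ u.val) (ρ i / (q ^ u.val) ^ (w i).val) (by
    rw [← pow_mul, mul_comm, pow_mul, hqN, one_pow])
  funext k
  by_cases hxk : x k = 0
  · simp [act, hρ k, hxk]
  · have h1 := hconst.final hN hw hNm hi hj hij hNτ (k := k) hxk
      ((u.val : ℤ) * ((w k).val - (w i).val)) (by
        push_cast
        rw [ZMod.natCast_zmod_val, ZMod.natCast_zmod_val, ZMod.natCast_zmod_val]
        linear_combination (w k - w i) * hu)
    have h2 := congrArg (fun z : Additive ℂˣ => ((Additive.toMul z : ℂˣ) : ℂ)) h1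
    simp only [τ, toMul_add, toMul_zsmul, toMul_sub, toMul_ofMul, Units.val_mul,
      Units.val_zpow_eq_zpow_val, Units.val_div_eq_div_val, Units.val_mk0] at h2
    rw [← hq] at h2
    rw [hρ k, h2, Pi.smul_apply, act, smul_eq_mul, zpow_mul, zpow_natCast, zpow_sub₀ (pow_ne_zero _ hq0),
      zpow_natCast, zpow_natCast]
    ring

theorem separates_tangent (hN : 2 ≤ N) (hc : c ≤ r) {w : Fin (r + 1) → ZMod N} {d : Fin c → ℕ}
    (hw : ∀ i j, w i = w j ∨ IsUnit (w i - w j))
    {f : Fin c → MvPolynomial (Fin (r + 1)) ℂ} (h : IsFreeCI w d f) {m : ℕ}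
    (hm : ∑ j, (d j - 1) + 1 ≤ m) (χ : ZMod N) {x v : Fin (r + 1) → ℂ} (hx0 : x ≠ 0)
    (hx : ∀ j, eval x (f j) = 0) (hv : ∀ j, diffAt (f j) x v = 0)
    (hxv : ∀ t : ℂ, v ≠ t • x) :
    ∃ g, IsSection w m χ g ∧ eval x g = 0 ∧ diffAt g x v ≠ 0 := by
  classical
  haveI : NeZero N := ⟨by omega⟩
  have hNm := le_of_sum hN hc hw h hm
  by_contra hcon
  push Not at hcon
  obtain ⟨g0, hg0, hg0x⟩ := bpf hN hw h hNm χ hx0 hx
  obtain ⟨lam, hlam⟩ : ∃ lam : ℂ, ∀ g, IsSection w m χ g → diffAt g x v = lam * eval x g := by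
    refine ⟨diffAt g0 x v / eval x g0, fun g hg => ?_⟩
    have h1 := hcon _ (hg.sub_C_mul hg0 (eval x g / eval x g0)) (by
      rw [map_sub, map_mul, eval_C, div_mul_cancel₀ _ hg0x, sub_self])
    rw [diffAt_sub, diffAt_C_mul, sub_eq_zero] at h1
    rw [h1]
    ring
  have hsupp : ∀ i, x i = 0 → v i = 0 := by
    intro i hi
    by_contra hvi
    obtain ⟨g, hg, hg'⟩ := exists_section_mul hN hw h hNm χ hx0 hx i
    have := hlam _ hg
    rw [diffAt_mul, map_mul, eval_X, diffAt_X, hi, zero_mul, zero_mul, mul_zero, add_zero] at this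
    exact mul_ne_zero hvi hg' this
  let τ : Fin (r + 1) → ℂ := fun i => v i / x i
  have hτ : ∀ i, v i = τ i * x i := by
    intro i
    simp only [τ]
    by_cases hi : x i = 0
    · rw [hsupp i hi, hi, mul_zero]
    · rw [div_mul_cancel₀ _ hi]
  have hconst : ConstOn w {i | x i ≠ 0} m χ τ lam := by
    intro i hi j hj k hk a b e h1 h2
    have h3 := hlam _ (mono_isSection w i j k h1 h2)
    rw [diffAt_mono x v i j k a b e hi hj hk] at h3
    have h4 : eval x (mono i j k a b e) ≠ 0 := by
      rw [eval_mono]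
      exact mul_ne_zero (mul_ne_zero (pow_ne_zero _ hi) (pow_ne_zero _ hj)) (pow_ne_zero _ hk)
    exact mul_right_cancel₀ h4 h3
  obtain ⟨i, j, hi, hj, hij⟩ := exists_two hN hw h hx0 hx
  have hN0 : (N : ℂ) ≠ 0 := by exact_mod_cast (by omega : N ≠ 0)
  have hNτ : N • (τ j - τ i) = 0 := by
    by_cases hk : ∃ k, x k ≠ 0 ∧ w k ≠ w i ∧ w k ≠ w j
    · obtain ⟨k, hk, hki, hkj⟩ := hk
      exact hconst.nsmul_three hN hNm (i := i) (j := j) (k := k) hi hj hk hij
        ((hw i k).resolve_left fun h => hki h.symm) ((hw j k).resolve_left fun h => hkj h.symm)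
    · by_cases hm2 : 2 * N ≤ m + 1
      · exact hconst.nsmul_of_large hN hm2 hi hj hij
      · push Not at hk
        have hab : ∀ k, x k ≠ 0 → w k = w i ∨ w k = w j := by
          intro k hkx
          by_cases h1 : w k = w i
          · exact Or.inl h1
          · exact Or.inr (hk k hkx h1)
        obtain ⟨j0, P, hP, -, hP2⟩ := small_case hN hc hw h hm (by omega) hx0 hx hij hab
        have hyx : v = scale2 w (w i) (τ i) (τ j) x := by
          funext k
          by_cases hxk : x k = 0
          · simp [scale2, hτ k, hxk]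
          · simp only [scale2]
            rw [hτ k]
            rcases hab k hxk with h1 | h1
            · rw [if_pos h1, hconst.same hN hNm hi hj hij (i := k) (j := i) hxk hi h1]
            · have h2 : w k ≠ w i := by
                rw [h1]
                intro h2
                rw [h2, sub_self] at hij
                haveI : Nontrivial (ZMod N) := ZMod.nontrivial_iff.2 (by omega)
                exact not_isUnit_zero hij
              rw [if_neg h2, hconst.same hN hNm hi hj hij (i := k) (j := j) hxk hj h1]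
        have h1 := hP2 (τ i) (τ j)
        rw [← hyx, hv j0] at h1
        have h2 := (mul_eq_zero.1 h1.symm).resolve_left hP
        rw [nsmul_eq_mul]
        linear_combination -h2
  have hτij : τ j - τ i = 0 := by
    rw [nsmul_eq_mul] at hNτ
    exact (mul_eq_zero.1 hNτ).resolve_left hN0
  have hji : IsUnit (w j - w i) := by
    have := hij.neg
    rwa [neg_sub] at this
  obtain ⟨u, hu⟩ := hji.exists_left_inv
  apply hxv (τ i)
  funext k
  rw [Pi.smul_apply, smul_eq_mul]
  by_cases hxk : x k = 0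
  · rw [hτ k, hxk, mul_zero, mul_zero]
  · have h1 := hconst.final hN hw hNm hi hj hij hNτ (k := k) hxk
      (((w k - w i) * u).val : ℤ) (by
        rw [zval, mul_assoc, hu, mul_one])
    rw [hτij, smul_zero, add_zero] at h1
    rw [hτ k, h1]

theorem veryAmple (hN : 2 ≤ N) (hc : c ≤ r) {w : Fin (r + 1) → ZMod N} {d : Fin c → ℕ}
    (hw : ∀ i j, w i = w j ∨ IsUnit (w i - w j))
    {f : Fin c → MvPolynomial (Fin (r + 1)) ℂ} (h : IsFreeCI w d f) {m : ℕ}
    (hm : ∑ j, (d j - 1) + 1 ≤ m) (χ : ZMod N) : VeryAmple w f m χ where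
  base_point_free _ hx0 hx := bpf hN hw h (le_of_sum hN hc hw h hm) χ hx0 hx
  separates_points _ _ hx0 hy0 hx hy hxy := separates hN hc hw h hm χ hx0 hy0 hx hy hxy
  separates_tangents _ _ hx0 hx hv hxv := separates_tangent hN hc hw h hm χ hx0 hx hv hxv

end Pool.Agent.Helper10.FQ
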